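import Pool.Agent.helper52.CG.Spec

set_option autoImplicit false

open scoped MatrixGroups Topology UpperHalfPlane
open UpperHalfPlane MeasureTheory Filter Set

namespace Pool.Agent.CG

open Pool.Agent.EN (XG MG mkX mkM fl pr)
open Pool.Agent.ER (Low Bow)
open Pool.Agent.RS (aM kM)

/-! ## matrices -/

theorem CGM_mul (x y : SL(2, ℝ)) (i j : Fin 2) : (x * y).1 i j = x.1 i 0 * y.1 0 j + x.1 i 1 * y.1 1 j := by
  show (x.1 * y.1) i j = _
  rw [Matrix.mul_apply, Fin.sum_univ_two]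

theorem CGM_a00 (t : ℝ) : (aM t).1 0 0 = Real.exp (t / 2) := rfl
theorem CGM_a01 (t : ℝ) : (aM t).1 0 1 = 0 := rfl
theorem CGM_a10 (t : ℝ) : (aM t).1 1 0 = 0 := rfl
theorem CGM_a11 (t : ℝ) : (aM t).1 1 1 = Real.exp (-(t / 2)) := rfl

theorem CGM_inv (x : SL(2, ℝ)) : (x⁻¹).1 0 0 = x.1 1 1 ∧ (x⁻¹).1 0 1 = -x.1 0 1 ∧ (x⁻¹).1 1 0 = -x.1 1 0 ∧ (x⁻¹).1 1 1 = x.1 0 0 := by
  rw [Matrix.SpecialLinearGroup.SL2_inv_expl]
  exact ⟨rfl, rfl, rfl, rfl⟩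

theorem CGM_det (x : SL(2, ℝ)) : x.1 0 0 * x.1 1 1 - x.1 0 1 * x.1 1 0 = 1 := by
  have := x.2
  rwa [Matrix.det_fin_two] at this

theorem CGM_ext (x y : SL(2, ℝ)) (h1 : x.1 0 0 = y.1 0 0) (h2 : x.1 0 1 = y.1 0 1) (h3 : x.1 1 0 = y.1 1 0) (h4 : x.1 1 1 = y.1 1 1) :
    x = y := by
  apply Subtype.ext
  ext i j
  fin_cases i <;> fin_cases j
  · exact h1
  · exact h2
  · exact h3
  · exact h4

/-- the trace -/
noncomputable def CGM_tr (x : SL(2, ℝ)) : ℝ := x.1 0 0 + x.1 1 1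

theorem CGM_tr_comm (x y : SL(2, ℝ)) : CGM_tr (x * y) = CGM_tr (y * x) := by
  unfold CGM_tr
  rw [CGM_mul, CGM_mul, CGM_mul, CGM_mul]
  ring

theorem CGM_tr_conj (x y : SL(2, ℝ)) : CGM_tr (x⁻¹ * y * x) = CGM_tr y := by
  rw [CGM_tr_comm, ← mul_assoc, mul_inv_cancel, one_mul] 

theorem CGM_tr_aM (t : ℝ) : CGM_tr (aM t) = 2 * Real.cosh (t / 2) := by
  unfold CGM_tr
  rw [CGM_a00, CGM_a11, Real.cosh_eq]
  ring

theorem CGM_tr_neg (x : SL(2, ℝ)) : CGM_tr (-x) = -CGM_tr x := by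
  unfold CGM_tr
  show -x.1 0 0 + -x.1 1 1 = _
  ring

theorem CGM_t_eq (t t' : ℝ) (ht : 0 < t) (ht' : 0 < t') (h : CGM_tr (aM t) = CGM_tr (aM t')) : t = t' := by
  rw [CGM_tr_aM, CGM_tr_aM] at h
  have h1 : Real.cosh (t / 2) = Real.cosh (t' / 2) := by linarith
  have h2 := Real.cosh_strictMonoOn.injOn (show t / 2 ∈ Ici 0 from (by positivity : (0:ℝ) ≤ t / 2))
    (show t' / 2 ∈ Ici 0 from (by positivity : (0:ℝ) ≤ t' / 2)) h1
  linarith

theorem CGM_aM_comm (hadd : ∀ s t, aM (s + t) = aM s * aM t) (s t : ℝ) : (aM t)⁻¹ * aM s * aM t = aM s := by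
  rw [mul_assoc, ← hadd, add_comm s t, hadd, inv_mul_cancel_left]

/-- the elements whose orbit is closed by `γ` -/
def Fp (γ : SL(2, ℝ)) : Set SL(2, ℝ) := {g | ∃ t : ℝ, 0 < t ∧ γ * g = g * aM t}

theorem CGM_Fp_tr (γ g : SL(2, ℝ)) (t : ℝ) (h : γ * g = g * aM t) : CGM_tr γ = CGM_tr (aM t) := by
  have h1 : g⁻¹ * γ * g = aM t := by rw [mul_assoc, h, inv_mul_cancel_left]
  rw [← h1, CGM_tr_conj]

theorem CGM_Fp_closed (γ : SL(2, ℝ)) : IsClosed (Fp γ) := by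
  by_cases he : Fp γ = ∅
  · rw [he]
    exact isClosed_empty
  · obtain ⟨g0, t0, ht0, h0⟩ := Set.nonempty_iff_ne_empty.2 he
    have : Fp γ = {g | γ * g = g * aM t0} := by
      ext g
      constructor
      · rintro ⟨t, ht, h⟩
        have e1 := CGM_Fp_tr γ g t h
        have e2 := CGM_Fp_tr γ g0 t0 h0
        have e3 := CGM_t_eq t t0 ht ht0 (by rw [← e1, e2])
        rw [e3] at h
        exact h
      · intro h
        exact ⟨t0, ht0, h⟩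
    rw [this]
    exact isClosed_eq (continuous_const.mul continuous_id) (continuous_id.mul continuous_const)

theorem CGM_diag (hadd : ∀ s t, aM (s + t) = aM s * aM t) (B : SL(2, ℝ)) (h1 : B.1 0 1 = 0) (h2 : B.1 1 0 = 0) :
    (∃ s, B = aM s) ∨ (∃ s, B = -aM s) := by
  have hd := CGM_det B
  rw [h1] at hd
  have hd' : B.1 0 0 * B.1 1 1 = 1 := by linarith
  have ha : B.1 0 0 ≠ 0 := by
    intro h
    rw [h] at hd'
    linarith
  have e : ∀ a b : ℝ, 0 < a → a * b = 1 → Real.exp (2 * Real.log a / 2) = a ∧ Real.exp (-(2 * Real.log a / 2)) = b := by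
    intro a b ha hab
    have e1 : 2 * Real.log a / 2 = Real.log a := by ring
    rw [e1, Real.exp_neg, Real.exp_log ha]
    refine ⟨rfl, ?_⟩
    field_simp
    linarith
  rcases lt_or_gt_of_ne ha with h | h
  · right
    obtain ⟨e1, e2⟩ := e (-B.1 0 0) (-B.1 1 1) (by linarith) (by linarith)
    refine ⟨2 * Real.log (-B.1 0 0), ?_⟩
    apply CGM_ext
    · show B.1 0 0 = -((aM _).1 0 0)
      rw [CGM_a00, e1]; ring
    · show B.1 0 1 = -((aM _).1 0 1)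
      rw [CGM_a01, h1]; ring
    · show B.1 1 0 = -((aM _).1 1 0)
      rw [CGM_a10, h2]; ring
    · show B.1 1 1 = -((aM _).1 1 1)
      rw [CGM_a11, e2]; ring
  · left
    obtain ⟨e1, e2⟩ := e (B.1 0 0) (B.1 1 1) h hd'
    refine ⟨2 * Real.log (B.1 0 0), ?_⟩
    apply CGM_ext
    · rw [CGM_a00, e1]
    · rw [CGM_a01, h1]
    · rw [CGM_a10, h2]
    · rw [CGM_a11, e2]

/-- two elements of `Fp γ` -/
theorem CGM_Fp_two (hadd : ∀ s t, aM (s + t) = aM s * aM t) (γ g k : SL(2, ℝ)) (hg : g ∈ Fp γ) (hk : k ∈ Fp γ) :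
    (∃ s, g = k * aM s) ∨ (∃ s, g = -k * aM s) := by
  obtain ⟨t, ht, h⟩ := hg
  obtain ⟨t', ht', h'⟩ := hk
  have e1 := CGM_Fp_tr γ g t h
  have e2 := CGM_Fp_tr γ k t' h'
  have e3 := CGM_t_eq t t' ht ht' (by rw [← e1, e2])
  rw [← e3] at h'
  have hc : aM t * (k⁻¹ * g) = (k⁻¹ * g) * aM t := by
    have : aM t = k⁻¹ * γ * k := by rw [mul_assoc, h', inv_mul_cancel_left]
    calc aM t * (k⁻¹ * g) = k⁻¹ * γ * k * (k⁻¹ * g) := by rw [← this]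
      _ = k⁻¹ * (γ * g) := by group
      _ = k⁻¹ * g * aM t := by rw [h, mul_assoc]
  obtain ⟨B, hB⟩ : ∃ B, B = k⁻¹ * g := ⟨_, rfl⟩
  rw [← hB] at hc
  have hgB : g = k * B := by rw [hB, mul_inv_cancel_left]
  have h01 := congrArg (fun x : SL(2, ℝ) => x.1 0 1) hc
  have h10 := congrArg (fun x : SL(2, ℝ) => x.1 1 0) hc
  simp only [CGM_mul, CGM_a00, CGM_a01, CGM_a10, CGM_a11] at h01 h10
  have hne : Real.exp (t / 2) - Real.exp (-(t / 2)) ≠ 0 := by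
    have : Real.exp (-(t / 2)) < Real.exp (t / 2) := Real.exp_lt_exp.2 (by linarith)
    linarith
  have b1 : B.1 0 1 = 0 := by
    have : (Real.exp (t / 2) - Real.exp (-(t / 2))) * B.1 0 1 = 0 := by linarith
    exact (mul_eq_zero.1 this).resolve_left hne
  have b2 : B.1 1 0 = 0 := by
    have : (Real.exp (t / 2) - Real.exp (-(t / 2))) * B.1 1 0 = 0 := by linarith
    exact (mul_eq_zero.1 this).resolve_left hne
  rcases CGM_diag hadd B b1 b2 with ⟨s, hs⟩ | ⟨s, hs⟩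
  · left
    exact ⟨s, by rw [hgB, hs]⟩
  · right
    exact ⟨s, by rw [hgB, hs, mul_neg, neg_mul]⟩

/-! ## images of closed sets -/

theorem CGM_meas {Y : Type} [TopologicalSpace Y] [T2Space Y] [MeasurableSpace Y] [BorelSpace Y] [SigmaCompactSpace SL(2, ℝ)]
    (f : SL(2, ℝ) → Y) (hf : Continuous f) (S : Set SL(2, ℝ)) (hS : IsClosed S) : MeasurableSet (f '' S) := by
  have h1 : IsSigmaCompact S := IsSigmaCompact.of_isClosed_subset isSigmaCompact_univ hS (subset_univ _)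
  obtain ⟨K, hK, hKe⟩ := h1.image hf
  rw [← hKe]
  exact MeasurableSet.iUnion fun n => (hK n).measurableSet

theorem CGM_countable (Γ : Subgroup SL(2, ℝ)) (hΓ : QU.SurfaceGroup Γ) : Countable Γ := by
  have hc : (univ : Set Γ) ⊆ ⋃ n : ℕ, {γ : Γ | ∃ z ∈ CompactExhaustion.choice ℍ n, γ • z ∈ CompactExhaustion.choice ℍ n} := by
    intro γ _
    obtain ⟨n, hn⟩ := (CompactExhaustion.choice ℍ).exists_mem I
    obtain ⟨m, hm⟩ := (CompactExhaustion.choice ℍ).exists_mem (γ • I)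
    rw [mem_iUnion]
    exact ⟨max n m, I, (CompactExhaustion.choice ℍ).subset (le_max_left n m) hn, (CompactExhaustion.choice ℍ).subset (le_max_right n m) hm⟩
  rw [← countable_univ_iff]
  exact (countable_iUnion fun n => (hΓ.discrete _ ((CompactExhaustion.choice ℍ).isCompact n)).countable).mono hc

/-! ## orbits -/

/-- the orbit of `x` -/
noncomputable def Orb (Γ : Subgroup SL(2, ℝ)) (x : XG Γ) : Set (XG Γ) := range (fun s : ℝ => fl Γ s x)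

/-- a piece of the orbit of `x` -/
noncomputable def Pce (Γ : Subgroup SL(2, ℝ)) (σ : ℝ) (x : XG Γ) : Set (XG Γ) := (fun s : ℝ => fl Γ s x) '' Icc (-σ) σ

theorem CGM_Pce_comp (Γ : Subgroup SL(2, ℝ)) (hfl : EN.FlowOn (fl Γ)) (σ : ℝ) (x : XG Γ) : IsCompact (Pce Γ σ x) := by
  have h1 : Continuous (fun s : ℝ => fl Γ s x) := hfl.cont.comp (continuous_id.prodMk continuous_const)
  exact isCompact_Icc.image h1

theorem CGM_Pce_shift (Γ : Subgroup SL(2, ℝ)) (hfl : EN.FlowOn (fl Γ)) (σ s : ℝ) (x : XG Γ) :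
    Pce Γ σ (fl Γ s x) = fl Γ (-s) ⁻¹' Pce Γ σ x := by
  ext y
  constructor
  · rintro ⟨u, hu, rfl⟩
    refine ⟨u, hu, ?_⟩
    show fl Γ u x = fl Γ (-s) (fl Γ u (fl Γ s x))
    rw [← hfl.add, ← hfl.add]
    congr 1
    ring
  · rintro ⟨u, hu, h⟩
    refine ⟨u, hu, ?_⟩
    have h' : fl Γ u x = fl Γ (-s) y := h
    show fl Γ u (fl Γ s x) = y
    rw [← hfl.add, add_comm, hfl.add, h', ← hfl.add, add_neg_cancel, hfl.zero]

theorem CGM_Pce_meas (Γ : Subgroup SL(2, ℝ)) [T2Space (XG Γ)] (hfl : EN.FlowOn (fl Γ)) (μ : Measure (XG Γ))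
    (hinv : ∀ t, μ.map (fl Γ t) = μ) (σ s : ℝ) (x : XG Γ) : μ (Pce Γ σ (fl Γ s x)) = μ (Pce Γ σ x) := by
  have hm : Measurable (fl Γ (-s)) := (hfl.cont.comp (continuous_const.prodMk continuous_id)).measurable
  have h1 := Measure.map_apply (μ := μ) hm (CGM_Pce_comp Γ hfl σ x).measurableSet
  rw [hinv] at h1
  rw [CGM_Pce_shift Γ hfl, ← h1]

theorem CGM_Orb_null (Γ : Subgroup SL(2, ℝ)) [T2Space (XG Γ)] (hfl : EN.FlowOn (fl Γ)) (μ : Measure (XG Γ))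
    (hinv : ∀ t, μ.map (fl Γ t) = μ) (σ : ℝ) (hσ : 0 < σ) (x : XG Γ) (h0 : μ (Pce Γ σ x) = 0) : μ (Orb Γ x) = 0 := by
  have h1 : Orb Γ x ⊆ ⋃ j : ℤ, Pce Γ σ (fl Γ (j * σ) x) := by
    rintro y ⟨s, rfl⟩
    rw [mem_iUnion]
    refine ⟨⌊s / σ⌋, s - ⌊s / σ⌋ * σ, ?_, ?_⟩
    · have e1 := Int.floor_le (s / σ)
      have e2 := Int.lt_floor_add_one (s / σ)
      have e3 : s / σ * σ = s := div_mul_cancel₀ s hσ.ne'
      constructor
      · nlinarith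
      · nlinarith
    · show fl Γ _ (fl Γ _ x) = fl Γ s x
      rw [← hfl.add]
      congr 1
      ring
  refine measure_mono_null h1 ?_
  rw [measure_iUnion_null_iff]
  intro j
  rw [CGM_Pce_meas Γ hfl μ hinv]
  exact h0

theorem CGM_small (hc : Continuous aM) (h0 : aM 0 = 1) (δ : ℝ) (hδ : 0 < δ) :
    ∃ σ : ℝ, 0 < σ ∧ ∀ s : ℝ, |s| ≤ σ → ∀ i j : Fin 2, |(aM s).1 i j - (1 : Matrix (Fin 2) (Fin 2) ℝ) i j| < δ := by
  have h1 : ∀ i j : Fin 2, ∀ᶠ s in 𝓝 (0 : ℝ), |(aM s).1 i j - (1 : Matrix (Fin 2) (Fin 2) ℝ) i j| < δ := by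
    intro i j
    have h2 : Continuous (fun s : ℝ => (aM s).1 i j) := by
      have : Continuous (fun s : ℝ => (aM s).1) := continuous_subtype_val.comp hc
      exact (continuous_apply j).comp ((continuous_apply i).comp this)
    have h3 : Tendsto (fun s : ℝ => |(aM s).1 i j - (1 : Matrix (Fin 2) (Fin 2) ℝ) i j|) (𝓝 0) (𝓝 |(aM 0).1 i j - (1 : Matrix (Fin 2) (Fin 2) ℝ) i j|) :=
      (h2.sub continuous_const).abs.tendsto 0
    rw [h0] at h3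
    have h4 : |(1 : SL(2, ℝ)).1 i j - (1 : Matrix (Fin 2) (Fin 2) ℝ) i j| = 0 := by
      rw [Matrix.SpecialLinearGroup.coe_one, sub_self, abs_zero]
    rw [h4] at h3
    exact h3.eventually (gt_mem_nhds hδ)
  have h5 : ∀ᶠ s in 𝓝 (0 : ℝ), ∀ i j : Fin 2, |(aM s).1 i j - (1 : Matrix (Fin 2) (Fin 2) ℝ) i j| < δ :=
    eventually_all.2 fun i => eventually_all.2 fun j => h1 i j
  obtain ⟨ε, hε, h6⟩ := Metric.eventually_nhds_iff.1 h5
  refine ⟨ε / 2, half_pos hε, ?_⟩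
  intro s hs
  apply h6
  rw [Real.dist_eq, sub_zero]
  linarith

theorem CGM_Orb_Low (h : EN.XFL_stmt) (hg : RS.GLC_stmt) (Γ : Subgroup SL(2, ℝ)) [T2Space (XG Γ)] (μ : Measure (XG Γ)) [IsProbabilityMeasure μ]
    (hinv : ∀ t, μ.map (fl Γ t) = μ) (x : XG Γ) : μ (Orb Γ x \ Low Γ μ 0) = 0 := by
  obtain ⟨hfl, -, -, -, hsur, -, -, -, hflX, -, -, -⟩ := h Γ
  obtain ⟨-, -, -, hca, -, -, -, -, -, -, hadd, -⟩ := hg
  have ha0 : aM 0 = 1 := by
    have e1 := hadd 0 0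
    rw [add_zero] at e1
    exact mul_left_cancel (a := aM 0) (b := aM 0) (c := 1) (by rw [mul_one]; exact e1.symm)
  by_cases hO : μ (Orb Γ x) = 0
  · exact measure_mono_null diff_subset hO
  · have hsub : Orb Γ x ⊆ Low Γ μ 0 := by
      rintro y ⟨s, rfl⟩ δ hδ ε hε
      obtain ⟨σ, hσ, hσ'⟩ := CGM_small hca ha0 δ hδ
      have hpos : μ (Pce Γ σ (fl Γ s x)) ≠ 0 := by
        rw [CGM_Pce_meas Γ hfl μ hinv]
        intro h0
        exact hO (CGM_Orb_null Γ hfl μ hinv σ hσ x h0)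
      have hreal : 0 < μ.real (Pce Γ σ (fl Γ s x)) := by
        rw [measureReal_def]
        exact ENNReal.toReal_pos hpos (measure_ne_top μ _)
      have hlim : Tendsto (fun n : ℕ => Real.exp (-((0 + ε) * (2 * (n : ℝ))))) atTop (𝓝 0) := by
        apply Real.tendsto_exp_neg_atTop_nhds_zero.comp
        apply Tendsto.const_mul_atTop (by linarith)
        apply Tendsto.const_mul_atTop (by norm_num)
        exact tendsto_natCast_atTop_atTop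
      have hev := hlim.eventually (gt_mem_nhds hreal)
      refine (hev.mono ?_).frequently
      intro n hn
      refine hn.le.trans ?_
      apply measureReal_mono _ (measure_ne_top μ _)
      rintro z ⟨u, hu, rfl⟩
      obtain ⟨g, hgx⟩ := hsur (fl Γ s x)
      refine ⟨g, aM u, hgx.symm, ?_, ?_⟩
      · show fl Γ u (fl Γ s x) = _
        rw [← hgx, hflX]
      · intro t _ i j
        rw [CGM_aM_comm hadd]
        exact hσ' u (abs_le.2 ⟨hu.1, hu.2⟩) i j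
    rw [diff_eq_empty.2 hsub, measure_empty]

/-! ## the periodic points -/

/-- the periodic points -/
def Pp (Γ : Subgroup SL(2, ℝ)) : Set (XG Γ) := {x | ∃ t : ℝ, 0 < t ∧ fl Γ t x = x}

theorem CGM_Pp (h : EN.XFL_stmt) (Γ : Subgroup SL(2, ℝ)) : Pp Γ = ⋃ γ : Γ, mkX Γ '' Fp (γ : SL(2, ℝ)) := by
  obtain ⟨hfl, -, -, -, hsur, -, -, -, hflX, -, heq, -⟩ := h Γ
  ext x
  rw [mem_iUnion]
  constructor
  · rintro ⟨t, ht, hx⟩
    obtain ⟨g, rfl⟩ := hsur x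
    rw [hflX, eq_comm, heq] at hx
    obtain ⟨γ, hγ⟩ := hx
    exact ⟨γ, g, ⟨t, ht, hγ⟩, rfl⟩
  · rintro ⟨γ, g, ⟨t, ht, hg⟩, rfl⟩
    refine ⟨t, ht, ?_⟩
    rw [hflX, eq_comm, heq]
    exact ⟨γ, hg⟩

theorem CGM_Pp_Low (h : EN.XFL_stmt) (hg : RS.GLC_stmt) (Γ : Subgroup SL(2, ℝ)) [T2Space (XG Γ)] [Countable Γ] (μ : Measure (XG Γ)) [IsProbabilityMeasure μ]
    (hinv : ∀ t, μ.map (fl Γ t) = μ) : μ (Pp Γ \ Low Γ μ 0) = 0 := by
  obtain ⟨hfl, -, -, -, hsur, -, -, -, hflX, -, heq, -⟩ := h Γ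
  have hadd := hg.2.2.2.2.2.2.2.2.2.2.1
  rw [CGM_Pp h, iUnion_diff, measure_iUnion_null_iff]
  intro γ
  by_cases he : Fp (γ : SL(2, ℝ)) = ∅
  · rw [he, image_empty, empty_diff, measure_empty]
  · obtain ⟨k, hk⟩ := Set.nonempty_iff_ne_empty.2 he
    have hsub : mkX Γ '' Fp (γ : SL(2, ℝ)) \ Low Γ μ 0 ⊆ (Orb Γ (mkX Γ k) \ Low Γ μ 0) ∪ (Orb Γ (mkX Γ (-k)) \ Low Γ μ 0) := by
      rintro x ⟨⟨g, hgF, rfl⟩, hx⟩
      rcases CGM_Fp_two hadd γ g k hgF hk with ⟨s, hs⟩ | ⟨s, hs⟩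
      · left
        refine ⟨⟨s, ?_⟩, hx⟩
        show fl Γ s (mkX Γ k) = _
        rw [hflX, hs]
      · right
        refine ⟨⟨s, ?_⟩, hx⟩
        show fl Γ s (mkX Γ (-k)) = _
        rw [hflX, hs]
    exact measure_mono_null hsub (measure_union_null (CGM_Orb_Low h hg Γ μ hinv _) (CGM_Orb_Low h hg Γ μ hinv _))

/-! ## the times at which the projection is on a closed geodesic -/

theorem CGM_sym (D : SL(2, ℝ)) (θ : ℝ) (h1 : D.1 0 1 = 0) (h2 : D.1 1 0 = 0) :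
    (kM θ * D * (kM θ)⁻¹).1 0 1 = (kM θ * D * (kM θ)⁻¹).1 1 0 := by
  obtain ⟨i1, i2, i3, i4⟩ := CGM_inv (kM θ)
  simp only [CGM_mul, i1, i2, i3, i4, h1, h2]
  have k00 : (kM θ).1 0 0 = Real.cos θ := rfl
  have k01 : (kM θ).1 0 1 = Real.sin θ := rfl
  have k10 : (kM θ).1 1 0 = -Real.sin θ := rfl
  have k11 : (kM θ).1 1 1 = Real.cos θ := rfl
  rw [k00, k01, k10, k11]
  ring

theorem CGM_times (h : EN.XFL_stmt) (hg : RS.GLC_stmt) (Γ : Subgroup SL(2, ℝ)) [Countable Γ] (g : SL(2, ℝ))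
    (hgP : mkX Γ g ∉ Pp Γ) : {t : ℝ | pr Γ (mkX Γ (g * aM t)) ∈ CGset Γ}.Countable := by
  obtain ⟨hfl, -, -, -, hsur, -, -, -, hflX, hpr, heq, heqM⟩ := h Γ
  have hadd := hg.2.2.2.2.2.2.2.2.2.2.1
  have hstab := hg.2.2.2.2.2.2.2.2.2.2.2.2.2.2.2.2.1
  have hsub : {t : ℝ | pr Γ (mkX Γ (g * aM t)) ∈ CGset Γ} ⊆
      ⋃ γ : Γ, {t : ℝ | ((g * aM t)⁻¹ * (γ : SL(2, ℝ)) * (g * aM t)).1 0 1 = ((g * aM t)⁻¹ * (γ : SL(2, ℝ)) * (g * aM t)).1 1 0 ∧
        4 < CGM_tr (γ : SL(2, ℝ)) ^ 2} := by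
    rintro t ⟨g', hg', t', ht', γ', hγ'⟩
    rw [hpr, heqM] at hg'
    obtain ⟨δ, hδ⟩ := hg'
    have hδ' : ((δ : SL(2, ℝ)) * (g * aM t)) • I = g' • I := by
      rw [mul_smul]
      exact hδ
    have hk : (((δ : SL(2, ℝ)) * (g * aM t))⁻¹ * g') • I = I := by
      rw [mul_smul, ← hδ', inv_smul_smul]
    obtain ⟨θ, hθ⟩ := hstab _ hk
    have hg'' : g' = (δ : SL(2, ℝ)) * (g * aM t) * kM θ := by rw [← hθ, mul_inv_cancel_left]
    obtain ⟨D, hD1, hD2, hD3, hD4⟩ : ∃ D : SL(2, ℝ), (γ' : SL(2, ℝ)) * g' = g' * D ∧ D.1 0 1 = 0 ∧ D.1 1 0 = 0 ∧ 4 < CGM_tr D ^ 2 := by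
      have hcosh : 1 < Real.cosh (t' / 2) := Real.one_lt_cosh.2 (by positivity)
      rcases hγ' with hγ' | hγ'
      · refine ⟨aM t', hγ', rfl, rfl, ?_⟩
        rw [CGM_tr_aM]
        nlinarith
      · refine ⟨-aM t', by rw [hγ', mul_neg], ?_, ?_, ?_⟩
        · show -((aM t').1 0 1) = 0
          rw [CGM_a01, neg_zero]
        · show -((aM t').1 1 0) = 0
          rw [CGM_a10, neg_zero]
        · rw [CGM_tr_neg, CGM_tr_aM]
          nlinarith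
    rw [mem_iUnion]
    refine ⟨δ⁻¹ * γ' * δ, ?_⟩
    have e0 : ((δ⁻¹ * γ' * δ : Γ) : SL(2, ℝ)) = (δ : SL(2, ℝ))⁻¹ * (γ' : SL(2, ℝ)) * (δ : SL(2, ℝ)) := rfl
    have e1 : (g * aM t)⁻¹ * ((δ⁻¹ * γ' * δ : Γ) : SL(2, ℝ)) * (g * aM t) = kM θ * D * (kM θ)⁻¹ := by
      rw [e0]
      have e2 : (γ' : SL(2, ℝ)) = g' * D * g'⁻¹ := by rw [← hD1, mul_inv_cancel_right]
      rw [e2, hg'']
      group
    refine ⟨?_, ?_⟩
    · rw [e1]
      exact CGM_sym D θ hD2 hD3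
    · rw [e0, CGM_tr_conj]
      have e2 : (γ' : SL(2, ℝ)) = (g'⁻¹)⁻¹ * D * g'⁻¹ := by rw [inv_inv, ← hD1, mul_inv_cancel_right]
      rw [e2, CGM_tr_conj]
      exact hD4
  refine (countable_iUnion fun γ => ?_).mono hsub
  apply Set.Subsingleton.countable
  obtain ⟨B, hB⟩ : ∃ B : SL(2, ℝ), B = g⁻¹ * (γ : SL(2, ℝ)) * g := ⟨_, rfl⟩
  have hconj : ∀ t, (g * aM t)⁻¹ * (γ : SL(2, ℝ)) * (g * aM t) = (aM t)⁻¹ * B * aM t := by
    intro t
    rw [hB]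
    group
  have h01 : ∀ t, ((g * aM t)⁻¹ * (γ : SL(2, ℝ)) * (g * aM t)).1 0 1 = Real.exp (-t) * B.1 0 1 := by
    intro t
    obtain ⟨i1, i2, i3, i4⟩ := CGM_inv (aM t)
    rw [hconj, CGM_mul, CGM_mul, CGM_mul, i1, i2, CGM_a01, CGM_a11]
    have : Real.exp (-t) = Real.exp (-(t / 2)) * Real.exp (-(t / 2)) := by rw [← Real.exp_add]; congr 1; ring
    rw [this]
    ring
  have h10 : ∀ t, ((g * aM t)⁻¹ * (γ : SL(2, ℝ)) * (g * aM t)).1 1 0 = Real.exp t * B.1 1 0 := by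
    intro t
    obtain ⟨i1, i2, i3, i4⟩ := CGM_inv (aM t)
    rw [hconj, CGM_mul, CGM_mul, CGM_mul, i3, i4, CGM_a10, CGM_a00]
    have : Real.exp t = Real.exp (t / 2) * Real.exp (t / 2) := by rw [← Real.exp_add]; congr 1; ring
    rw [this]
    ring
  rintro t1 ⟨ht1, htr⟩ t2 ⟨ht2, -⟩
  rw [h01, h10] at ht1 ht2
  have hx : ∀ t : ℝ, Real.exp (-t) * B.1 0 1 = Real.exp t * B.1 1 0 → B.1 0 1 = Real.exp (2 * t) * B.1 1 0 := by
    intro t ht
    have e1 : Real.exp t * Real.exp (-t) = 1 := by rw [← Real.exp_add, add_neg_cancel, Real.exp_zero]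
    have e2 : Real.exp (2 * t) = Real.exp t * Real.exp t := by rw [← Real.exp_add]; congr 1; ring
    rw [e2]
    calc B.1 0 1 = (Real.exp t * Real.exp (-t)) * B.1 0 1 := by rw [e1, one_mul]
      _ = Real.exp t * (Real.exp (-t) * B.1 0 1) := by ring
      _ = _ := by rw [ht]; ring
  have ht1' := hx t1 ht1
  have ht2' := hx t2 ht2
  by_cases hz : B.1 1 0 = 0
  · exfalso
    apply hgP
    have hz' : B.1 0 1 = 0 := by rw [ht1', hz, mul_zero]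
    have hBtr : CGM_tr B = CGM_tr (γ : SL(2, ℝ)) := by rw [hB, CGM_tr_conj]
    obtain ⟨s, hs0, hs⟩ : ∃ s : ℝ, s ≠ 0 ∧ B * B = aM s := by
      rcases CGM_diag hadd B hz' hz with ⟨s, hs⟩ | ⟨s, hs⟩
      · refine ⟨s + s, ?_, by rw [hs, hadd]⟩
        intro h0
        have : s = 0 := by linarith
        rw [← hBtr, hs, this, CGM_tr_aM, zero_div, Real.cosh_zero] at htr
        norm_num at htr
      · refine ⟨s + s, ?_, by rw [hs, neg_mul_neg, hadd]⟩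
        intro h0
        have : s = 0 := by linarith
        rw [← hBtr, hs, this, CGM_tr_neg, CGM_tr_aM, zero_div, Real.cosh_zero] at htr
        norm_num at htr
    have hγ2 : ((γ : SL(2, ℝ)) * (γ : SL(2, ℝ))) * g = g * aM s := by
      rw [← hs, hB]
      group
    rcases lt_or_gt_of_ne hs0 with hneg | hpos
    · refine ⟨-s, by linarith, ?_⟩
      rw [hflX, eq_comm, heq]
      refine ⟨(γ * γ)⁻¹, ?_⟩
      have e0 : (((γ * γ)⁻¹ : Γ) : SL(2, ℝ)) = ((γ : SL(2, ℝ)) * (γ : SL(2, ℝ)))⁻¹ := rfl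
      have e1 : aM s * aM (-s) = 1 := by
        rw [← hadd, add_neg_cancel]
        have e1 := hadd 0 0
        rw [add_zero] at e1
        exact mul_left_cancel (a := aM 0) (b := aM 0) (c := 1) (by rw [mul_one]; exact e1.symm)
      rw [e0, inv_mul_eq_iff_eq_mul, ← mul_assoc, hγ2, mul_assoc, e1, mul_one]
    · refine ⟨s, hpos, ?_⟩
      rw [hflX, eq_comm, heq]
      exact ⟨γ * γ, hγ2⟩
  · have e1 : Real.exp (2 * t1) = Real.exp (2 * t2) := by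
      have := ht1'.symm.trans ht2'
      exact mul_right_cancel₀ hz this
    have := Real.exp_injective e1
    linarith

theorem CGM_fubini (h : EN.XFL_stmt) (hg : RS.GLC_stmt) (Γ : Subgroup SL(2, ℝ)) [T2Space (XG Γ)] [SecondCountableTopology (XG Γ)] [Countable Γ]
    (μ : Measure (XG Γ)) [IsProbabilityMeasure μ] (hinv : ∀ t, μ.map (fl Γ t) = μ) (hA : MeasurableSet (pr Γ ⁻¹' CGset Γ))
    (hP : MeasurableSet (Pp Γ)) : μ (pr Γ ⁻¹' CGset Γ \ Pp Γ) = 0 := by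
  obtain ⟨hfl, -, -, -, hsur, -, -, -, hflX, -, -, -⟩ := h Γ
  obtain ⟨B, hB⟩ : ∃ B, B = pr Γ ⁻¹' CGset Γ \ Pp Γ := ⟨_, rfl⟩
  have hBm : MeasurableSet B := by
    rw [hB]
    exact hA.diff hP
  obtain ⟨ν, hν⟩ : ∃ ν : Measure ℝ, ν = volume.restrict (Icc 0 1) := ⟨_, rfl⟩
  haveI : IsFiniteMeasure ν := by
    rw [hν]
    infer_instance
  have hν0 : ν ≠ 0 := by
    rw [hν]
    intro h0
    have := congrArg (fun m : Measure ℝ => m univ) h0
    simp at this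
  have hx : ∀ x, ν {t : ℝ | fl Γ t x ∈ B} = 0 := by
    intro x
    have hc : {t : ℝ | fl Γ t x ∈ B}.Countable := by
      by_cases hxP : x ∈ Pp Γ
      · have : {t : ℝ | fl Γ t x ∈ B} = ∅ := by
          rw [eq_empty_iff_forall_notMem]
          intro t ht
          rw [hB] at ht
          apply ht.2
          obtain ⟨τ, hτ, hτx⟩ := hxP
          refine ⟨τ, hτ, ?_⟩
          rw [← hfl.add, add_comm, hfl.add, hτx]
        rw [this]
        exact countable_empty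
      · obtain ⟨g, rfl⟩ := hsur x
        refine (CGM_times h hg Γ g hxP).mono ?_
        intro t ht
        have ht' : fl Γ t (mkX Γ g) ∈ B := ht
        rw [hB, hflX] at ht'
        exact ht'.1
    rw [hν]
    exact hc.measure_zero _
  have hmeas : Measurable (fun p : XG Γ × ℝ => fl Γ p.2 p.1) := (hfl.cont.comp (continuous_snd.prodMk continuous_fst)).measurable
  have hmeas' : Measurable (fun p : ℝ × XG Γ => fl Γ p.1 p.2) := hfl.cont.measurable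
  have h1 : (μ.prod ν) ((fun p : XG Γ × ℝ => fl Γ p.2 p.1) ⁻¹' B) = 0 := by
    rw [Measure.measure_prod_null (hmeas hBm)]
    exact Eventually.of_forall fun x => hx x
  have h2 : (ν.prod μ) ((fun p : ℝ × XG Γ => fl Γ p.1 p.2) ⁻¹' B) = 0 := by
    rw [← Measure.prod_swap, Measure.map_apply measurable_swap (hmeas' hBm)]
    exact h1
  rw [Measure.measure_prod_null (hmeas' hBm)] at h2
  have h3 : ∀ t : ℝ, μ (Prod.mk t ⁻¹' ((fun p : ℝ × XG Γ => fl Γ p.1 p.2) ⁻¹' B)) = μ B := by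
    intro t
    have hm : Measurable (fl Γ t) := (hfl.cont.comp (continuous_const.prodMk continuous_id)).measurable
    have e1 := Measure.map_apply (μ := μ) hm hBm
    rw [hinv] at e1
    rw [e1]
    rfl
  haveI : (ae ν).NeBot := ae_neBot.2 hν0
  obtain ⟨t, ht⟩ := h2.exists
  rw [← hB]
  have ht' : μ (Prod.mk t ⁻¹' ((fun p : ℝ × XG Γ => fl Γ p.1 p.2) ⁻¹' B)) = 0 := ht
  rwa [h3] at ht'

theorem CGM_proof (h : EN.XFL_stmt) (h2 : EN.XTX_stmt) (h3 : EN.XTM_stmt) (hg : RS.GLC_stmt) : CGM_stmt := by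
  intro Γ μ hΓ hμ hinv
  obtain ⟨hcX, hT2, hsc⟩ := h2 Γ hΓ
  obtain ⟨hcM, hT2M, hscM⟩ := h3 Γ hΓ
  haveI := CGM_countable Γ hΓ
  haveI := hg.1
  haveI := hg.2.1
  haveI : SigmaCompactSpace SL(2, ℝ) := inferInstance
  obtain ⟨hfl, hprc, hmkc, -, hsur, -, -, -, hflX, hpr, heq, heqM⟩ := h Γ
  have hcont : Continuous (fun g : SL(2, ℝ) => mkM Γ (g • I)) := by
    have : (fun g : SL(2, ℝ) => mkM Γ (g • I)) = fun g => pr Γ (mkX Γ g) := funext fun g => (hpr g).symm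
    rw [this]
    exact hprc.comp hmkc
  have hCG : CGset Γ = ⋃ γ : Γ, ((fun g : SL(2, ℝ) => mkM Γ (g • I)) '' Fp (γ : SL(2, ℝ)) ∪
      (fun g : SL(2, ℝ) => mkM Γ (g • I)) '' Fp (-(γ : SL(2, ℝ)))) := by
    ext x
    rw [mem_iUnion]
    constructor
    · rintro ⟨g, hx, t, ht, γ, hγ⟩
      refine ⟨γ, ?_⟩
      rcases hγ with hγ | hγ
      · exact Or.inl ⟨g, ⟨t, ht, hγ⟩, hx.symm⟩
      · exact Or.inr ⟨g, ⟨t, ht, by rw [neg_mul, hγ, neg_neg]⟩, hx.symm⟩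
    · rintro ⟨γ, ⟨g, ⟨t, ht, hγ⟩, hx⟩ | ⟨g, ⟨t, ht, hγ⟩, hx⟩⟩
      · exact ⟨g, hx.symm, t, ht, γ, Or.inl hγ⟩
      · exact ⟨g, hx.symm, t, ht, γ, Or.inr (by rw [← hγ, neg_mul, neg_neg])⟩
  have hmCG : MeasurableSet (CGset Γ) := by
    rw [hCG]
    exact MeasurableSet.iUnion fun γ => (CGM_meas _ hcont _ (CGM_Fp_closed _)).union (CGM_meas _ hcont _ (CGM_Fp_closed _))
  have hmP : MeasurableSet (Pp Γ) := by
    rw [CGM_Pp h]
    exact MeasurableSet.iUnion fun γ => CGM_meas _ hmkc _ (CGM_Fp_closed _)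
  have hmpr : Measurable (pr Γ) := hprc.measurable
  refine ⟨hmCG, ?_⟩
  rw [Measure.map_apply hmpr hmCG]
  have hsub : pr Γ ⁻¹' CGset Γ ⊆ (pr Γ ⁻¹' CGset Γ \ Pp Γ) ∪ ((Pp Γ \ Low Γ μ 0) ∪ Low Γ μ 0) := by
    intro x hx
    by_cases hxP : x ∈ Pp Γ
    · by_cases hxL : x ∈ Low Γ μ 0
      · exact Or.inr (Or.inr hxL)
      · exact Or.inr (Or.inl ⟨hxP, hxL⟩)
    · exact Or.inl ⟨hx, hxP⟩
  calc μ (pr Γ ⁻¹' CGset Γ) ≤ μ ((pr Γ ⁻¹' CGset Γ \ Pp Γ) ∪ ((Pp Γ \ Low Γ μ 0) ∪ Low Γ μ 0)) := measure_mono hsub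
    _ ≤ μ (pr Γ ⁻¹' CGset Γ \ Pp Γ) + μ ((Pp Γ \ Low Γ μ 0) ∪ Low Γ μ 0) := measure_union_le _ _
    _ ≤ μ (pr Γ ⁻¹' CGset Γ \ Pp Γ) + (μ (Pp Γ \ Low Γ μ 0) + μ (Low Γ μ 0)) := by gcongr; exact measure_union_le _ _
    _ = μ (Low Γ μ 0) := by rw [CGM_fubini h hg Γ μ hinv (hmpr hmCG) hmP, CGM_Pp_Low h hg Γ μ hinv, zero_add, zero_add]

end Pool.Agent.CG

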